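import Pool.Agent.K7.H63.MR.Win

/-!
# Binary digits of almost all multiples of `√2`

No hypothesis is assumed.  Let `d` be a positive integer which is not a square, for example
`d = 2`.  For every `ε > 0` there are `c > 0` and `M₀` such that for all `M ≥ M₀` and all `n` with
`M ≤ 2 ^ n`, at least `(1 - ε) M` of the integers `m` in `[1, M]` have the property that both the
digit `0` and the digit `1` occur at least `c √(n log M)` times among the first `n` binary digits
of `m √d` after the point.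
-/

set_option autoImplicit false

open Finset

namespace Pool.Agent.Results.MP_0308e6_nt.AlmostAllMultiples

/-- the `k`-th binary digit of `x` after the point -/
noncomputable def digit (x : ℝ) (k : ℕ) : ℤ := ⌊x * 2 ^ k⌋ % 2

/-- the number of digits `v` among the first `n` binary digits of `x` after the point -/
noncomputable def count (v : ℤ) (x : ℝ) (n : ℕ) : ℕ :=
  ((Icc 1 n).filter (fun k => digit x k = v)).card

lemma digit_neg {x : ℝ} (hx : Irrational x) (k : ℕ) : digit (-x) k = 1 - digit x k := by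
  unfold digit
  have h1 : ⌊-x * 2 ^ k⌋ = -⌊x * 2 ^ k⌋ - 1 := by
    rw [neg_mul, Int.floor_eq_iff]
    have h2 := Int.floor_le (x * 2 ^ k)
    have h3 := Int.lt_floor_add_one (x * 2 ^ k)
    have h4 : (⌊x * 2 ^ k⌋ : ℝ) ≠ x * 2 ^ k := fun h =>
      Pool.Agent.K7.H63.MR.irr_mul hx k ⟨(⌊x * 2 ^ k⌋ : ℚ), by push_cast; exact h⟩
    have h5 := lt_of_le_of_ne h2 h4
    push_cast
    constructor <;> linarith
  rw [h1]
  omega

lemma count_one (x : ℝ) (n : ℕ) : count 1 x n = Pool.Agent.K7.H63.MR.cnt x n := by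
  unfold count Pool.Agent.K7.H63.MR.cnt
  congr 1
  refine filter_congr fun k hk => ?_
  rw [mem_Icc] at hk
  unfold digit Pool.Agent.K7.H63.MR.dig
  rw [if_neg (by omega)]
  omega

lemma count_zero {x : ℝ} (hx : Irrational x) (n : ℕ) :
    count 0 x n = Pool.Agent.K7.H63.MR.cnt (-x) n := by
  rw [← count_one]
  unfold count
  congr 1
  refine filter_congr fun k hk => ?_
  rw [digit_neg hx]
  omega

/-- The result. -/
theorem result (d : ℕ) (hd : ¬ IsSquare d) (ε : ℝ) (hε : 0 < ε) :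
    ∃ c : ℝ, 0 < c ∧ ∃ M₀ : ℕ, ∀ M n : ℕ, M₀ ≤ M → M ≤ 2 ^ n →
      (1 - ε) * M ≤ (((Icc 1 M).filter (fun m : ℕ =>
        c * Real.sqrt (n * Real.log M) ≤ count 0 (m * Real.sqrt d) n ∧
        c * Real.sqrt (n * Real.log M) ≤ count 1 (m * Real.sqrt d) n)).card : ℝ) := by
  classical
  have hirr : Irrational (Real.sqrt d) := irrational_sqrt_natCast_iff.2 hd
  have h1 : (Real.sqrt d) ^ 2 = ((d : ℤ) : ℝ) := by
    rw [Real.sq_sqrt (Nat.cast_nonneg d)]; simp
  have h2 : (-Real.sqrt d) ^ 2 = ((d : ℤ) : ℝ) := by rw [neg_sq]; exact h1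
  obtain ⟨c₁, hc₁, M₁, H₁⟩ := Pool.Agent.K7.H63.MR.almost hirr h1 (ε / 4) (by positivity)
  obtain ⟨c₂, hc₂, M₂, H₂⟩ := Pool.Agent.K7.H63.MR.almost hirr.neg h2 (ε / 4) (by positivity)
  obtain ⟨M₃, hM₃⟩ := exists_nat_gt (4 / ε)
  refine ⟨min c₁ c₂, lt_min hc₁ hc₂, M₁ + M₂ + M₃ + 1, ?_⟩
  intro M n hM hMn
  have G₁ := H₁ M n (by omega) hMn
  have G₂ := H₂ M n (by omega) hMn
  set F := (Icc 1 M).filter (fun m : ℕ =>
        min c₁ c₂ * Real.sqrt (n * Real.log M) ≤ count 0 (m * Real.sqrt d) n ∧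
        min c₁ c₂ * Real.sqrt (n * Real.log M) ≤ count 1 (m * Real.sqrt d) n) with hF
  set B₁ := (range M).filter (fun m : ℕ => (Pool.Agent.K7.H63.MR.cnt (m * Real.sqrt d) n : ℝ) <
        c₁ * Real.sqrt (n * Real.log M)) with hB₁
  set B₂ := (range M).filter (fun m : ℕ => (Pool.Agent.K7.H63.MR.cnt (m * -Real.sqrt d) n : ℝ) <
        c₂ * Real.sqrt (n * Real.log M)) with hB₂
  have hsub : Icc 1 M ⊆ F ∪ (B₁ ∪ (B₂ ∪ {M})) := by
    intro m hm
    rw [mem_Icc] at hm
    rw [mem_union, mem_union, mem_union, mem_singleton]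
    by_contra hcon
    push Not at hcon
    obtain ⟨hF1, hB1, hB2, hmM⟩ := hcon
    apply hF1
    have hmR : m < M := by omega
    rw [hB₁, mem_filter, mem_range] at hB1
    rw [hB₂, mem_filter, mem_range] at hB2
    have h3 : c₁ * Real.sqrt (n * Real.log M) ≤
        (Pool.Agent.K7.H63.MR.cnt (m * Real.sqrt d) n : ℝ) := by
      by_contra h; exact hB1 ⟨hmR, not_le.1 h⟩
    have h4 : c₂ * Real.sqrt (n * Real.log M) ≤
        (Pool.Agent.K7.H63.MR.cnt (m * -Real.sqrt d) n : ℝ) := by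
      by_contra h; exact hB2 ⟨hmR, not_le.1 h⟩
    have hmirr : Irrational ((m : ℝ) * Real.sqrt d) := by
      rw [mul_comm]; exact hirr.mul_natCast (by omega)
    rw [mul_neg, ← count_zero hmirr] at h4
    rw [← count_one] at h3
    have h5 : 0 ≤ Real.sqrt (n * Real.log M) := Real.sqrt_nonneg _
    rw [hF, mem_filter, mem_Icc]
    exact ⟨hm, (mul_le_mul_of_nonneg_right (min_le_right _ _) h5).trans h4,
      (mul_le_mul_of_nonneg_right (min_le_left _ _) h5).trans h3⟩
  have hcard := card_le_card hsub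
  have hcard2 : M ≤ F.card + (B₁.card + (B₂.card + 1)) := by
    rw [Nat.card_Icc] at hcard
    have e1 := card_union_le F (B₁ ∪ (B₂ ∪ {M}))
    have e2 := card_union_le B₁ (B₂ ∪ {M})
    have e3 := card_union_le B₂ {M}
    rw [card_singleton] at e3
    omega
  have hcard3 : (M : ℝ) ≤ F.card + (B₁.card + (B₂.card + 1)) := by exact_mod_cast hcard2
  have h6 : (4 : ℝ) / ε < M := by
    refine hM₃.trans_le ?_
    exact_mod_cast (by omega : M₃ ≤ M)
  rw [div_lt_iff₀ hε] at h6
  linarith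

end Pool.Agent.Results.MP_0308e6_nt.AlmostAllMultiples
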