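import Pool.Agent.K7.H59.DC.SqrtTwo
import Pool.Agent.K7.H59.DC.Cubic

/-!
# Digit changes and linear relations among the binary digits of `√2`

No hypothesis is assumed.  Every linear relation `∑_j q_j d_(k+j) = e` with fixed integer
coefficients and `∑_j q_j 2^j ≠ 0` between neighbouring binary digits of `√2` fails for at least
`c (log n)^3 / (log log n)^4` of the `k ≤ n`, for all large `n`.  The case `d_k - d_(k+1) = 0`
says that the binary expansion of `√2` has at least `c (log n)^3 / (log log n)^4` digit changes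
up to place `n`.
-/

set_option autoImplicit false

open Finset

namespace Pool.Agent.Results.MP_0308e6_nt.DigitChangesCubed

/-- The `k`-th binary digit of `√2` (for `k ≥ 1` the `k`-th digit after the point). -/
noncomputable def digit (k : ℕ) : ℤ := ⌊Real.sqrt 2 * (2 : ℝ) ^ k⌋ % 2

/-- For all integers `q_0, ..., q_(J-1)`, `e` with `∑ q_j 2^j ≠ 0` there is `c > 0` such that for
all large `n` at least `c (log n)^3 / (log log n)^4` of the places `1 ≤ k ≤ n` have
`∑_j q_j d_(k+j) ≠ e`, where `d_k` is the `k`-th binary digit of `√2`. -/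
theorem result (J : ℕ) (q : ℕ → ℤ) (e : ℤ) (hQ : ∑ j ∈ Finset.range J, q j * 2 ^ j ≠ 0) :
    ∃ c : ℝ, 0 < c ∧ ∀ᶠ n : ℕ in Filter.atTop,
      c * (Real.log n ^ 3 / Real.log (Real.log n) ^ 4) ≤
        (((Finset.Icc 1 n).filter
          fun k => ∑ j ∈ Finset.range J, q j * digit (k + j) ≠ e).card : ℝ) := by
  set Q : ℤ := ∑ j ∈ Finset.range J, q j * 2 ^ j with hQdef
  obtain ⟨C, hC⟩ := Pool.Agent.K7.H59.DC.rel_bounded J q e
  have hsum := Pool.Agent.K7.H59.DC.hasSum_rel J q e
  have hD : (((Q : ℤ) : ℝ) * Real.sqrt 2) ^ 2 = ((2 * Q ^ 2 : ℤ) : ℝ) := by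
    rw [mul_pow, Real.sq_sqrt (by norm_num)]
    push_cast; ring
  obtain ⟨c, hc, hev⟩ := Pool.Agent.K7.H59.DC.cubic_bound 2 le_rfl C
    (Pool.Agent.K7.H59.DC.rel J q e) hC _ hsum (2 * Q ^ 2) hD 8 3 Q.natAbs (by norm_num)
    (by decide) (by
      intro p hpp hp8 hpgt
      have : Fact p.Prime := ⟨hpp⟩
      have hp8' : p % 8 = 3 := by simpa using hp8
      have hp2 : p ≠ 2 := by rintro rfl; norm_num at hp8'
      have hp2' : ((2 : ℕ) : ZMod p) ≠ 0 := by
        intro h
        rw [ZMod.natCast_eq_zero_iff] at h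
        exact hp2 ((Nat.prime_dvd_prime_iff_eq hpp Nat.prime_two).mp h)
      have hQp : (Q : ZMod p) ≠ 0 := by
        intro h
        rw [ZMod.intCast_zmod_eq_zero_iff_dvd] at h
        have h1 : p ∣ Q.natAbs := Int.natCast_dvd.mp h
        have h2 := Nat.le_of_dvd (Int.natAbs_pos.mpr hQ) h1
        omega
      have hnonsq : ¬ IsSquare (2 : ZMod p) := by
        rw [ZMod.exists_sq_eq_two_iff hp2]
        omega
      refine ⟨hp2, hp2', ?_⟩
      have hne : (((2 * Q ^ 2 : ℤ)) : ZMod p) ≠ 0 := by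
        push_cast
        exact mul_ne_zero (by exact_mod_cast hp2') (pow_ne_zero 2 hQp)
      have h1 : (p - 1) / 2 = p / 2 := by
        omega
      rw [h1]
      rcases ZMod.pow_div_two_eq_neg_one_or_one p hne with h | h
      · exfalso
        rw [← ZMod.euler_criterion p hne] at h
        apply hnonsq
        obtain ⟨r, hr⟩ := h
        push_cast at hr
        refine ⟨r / Q, ?_⟩
        field_simp
        rw [pow_two r, ← hr]
      · exact h)
  refine ⟨c / 2, by positivity, ?_⟩
  have hlogN : Filter.Tendsto (fun n : ℕ => Real.log n) Filter.atTop Filter.atTop :=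
    Real.tendsto_log_atTop.comp tendsto_natCast_atTop_atTop
  have hratio : ∀ᶠ l : ℝ in Filter.atTop, 2 / c * Real.log l ^ 4 ≤ l ^ 3 := by
    have h1 := (isLittleO_log_rpow_atTop (show (0 : ℝ) < 1 / 4 by norm_num)).bound
      (show (0 : ℝ) < 1 by norm_num)
    filter_upwards [h1, Filter.eventually_ge_atTop 1, Filter.eventually_ge_atTop (2 / c)]
      with l h2 h3 h4
    have h5 : 0 ≤ Real.log l := Real.log_nonneg h3
    rw [Real.norm_eq_abs, Real.norm_eq_abs, abs_of_nonneg h5, one_mul,
      abs_of_nonneg (by positivity)] at h2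
    have h6 : Real.log l ^ 4 ≤ l := by
      calc Real.log l ^ 4 ≤ (l ^ (1 / 4 : ℝ)) ^ 4 := pow_le_pow_left₀ h5 h2 4
        _ = l := by
            rw [← Real.rpow_natCast, ← Real.rpow_mul (by linarith)]
            norm_num
    calc 2 / c * Real.log l ^ 4 ≤ l * l :=
          mul_le_mul h4 h6 (by positivity) (by linarith)
      _ ≤ l ^ 3 := by nlinarith [mul_nonneg (by linarith : (0 : ℝ) ≤ l) (by linarith : (0 : ℝ) ≤ l)]
  filter_upwards [hev, hlogN.eventually_ge_atTop 3, hlogN.eventually hratio] with n h1 hl3 hr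
  set l := Real.log n with hl
  have hll : 0 < Real.log l := Real.log_pos (by linarith)
  have hbig : 1 ≤ c / 2 * (l ^ 3 / Real.log l ^ 4) := by
    have h3 : 2 / c ≤ l ^ 3 / Real.log l ^ 4 := by
      rw [le_div_iff₀ (by positivity)]
      exact hr
    have h4 := mul_le_mul_of_nonneg_left h3 (by positivity : 0 ≤ c / 2)
    have h5 : c / 2 * (2 / c) = 1 := by field_simp
    linarith
  have hcard : Pool.Agent.K7.H59.DC.cnt (Pool.Agent.K7.H59.DC.rel J q e) n ≤
      ((Finset.Icc 1 n).filter
        fun k => ∑ j ∈ Finset.range J, q j * digit (k + j) ≠ e).card + 1 := by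
    classical
    unfold Pool.Agent.K7.H59.DC.cnt
    refine le_trans (card_le_card (t := insert 0 ((Finset.Icc 1 n).filter
      fun k => ∑ j ∈ Finset.range J, q j * digit (k + j) ≠ e)) ?_) (card_insert_le _ _)
    intro k hk
    rw [mem_filter, mem_range] at hk
    rw [mem_insert, mem_filter, mem_Icc]
    by_cases h0 : k = 0
    · exact Or.inl h0
    · right
      refine ⟨⟨by omega, by omega⟩, ?_⟩
      intro he
      apply hk.2
      unfold Pool.Agent.K7.H59.DC.rel
      rw [if_neg h0, add_zero]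
      exact sub_eq_zero.mpr he
  have hcard' : (Pool.Agent.K7.H59.DC.cnt (Pool.Agent.K7.H59.DC.rel J q e) n : ℝ) ≤
      (((Finset.Icc 1 n).filter
        fun k => ∑ j ∈ Finset.range J, q j * digit (k + j) ≠ e).card : ℝ) + 1 := by
    exact_mod_cast hcard
  linarith

end Pool.Agent.Results.MP_0308e6_nt.DigitChangesCubed
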