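import Pool.Agent.K7.H63.LN.Fin
import Pool.Agent.K7.H63.LN.Poly
import Pool.Agent.K7.H63.MR.Chg
import Pool.Agent.K7.H63.MR.ChgAlg

/-!
# Equidistributed digits in almost all multiples of `√2`, along a fixed infinite set of places

No hypothesis is assumed.  Let `b ≥ 2` (for instance `b = 2`), `l ≥ 1` and `ε > 0`.  There are an integer `Q ≥ 1`,
`c > 0` and `J₀` such that for every `J ≥ J₀` the following holds.  Cut the places after the point into blocks of
`J` places, and let `𝒫` be the union of the blocks with the property that the digits of `Q √2` at the next `2 J`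
places are neither all `0` nor all `b - 1`.  Then `𝒫` has at least `c (log N) ^ 3 / (log log N) ^ 4` elements up to
`N` for large `N`; and for large `M` and `N`, for all but at most `ε M` of the integers `m ≤ M`, EVERY block of `l`
digits in base `b` stands with its right frequency `b ^ (- l)`, up to `ε`, at the places of `𝒫` up to `N` in the
expansion of `m √2`.  For `b = 2`, `l = 1`: among the binary digits of `m √2` at the places of `𝒫` the
proportion of ones is between `1 / 2 - ε` and `1 / 2 + ε`.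

The same is proved for `f(m) √2 + y`, for every nonconstant polynomial `f` with integer coefficients and
uniformly for all real `y`, with a number `Q` which may depend on `f`.  The set `𝒫` does not depend on `m` and `y`.

So almost all multiples of `√2` are nearly simply normal along `𝒫`; and outside of `𝒫` the digits of `Q √2`
are constant over long stretches, so `√2` itself is periodic there with a bounded period.

Proof.  If the digits of `Q √2` in the two blocks after a block `B` are not constant, then `Q b ^ p √2` is at least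
`b ^ (-3 J)` from the integers for all the places `p` in `B`.  If `H b ^ p √2 + H' b ^ p' √2` and
`H b ^ p √2 + H' b ^ p'' √2` are both very near to integers, then so is `H' (b ^ (p'' - p') - 1) b ^ p' √2`; if
`Q` is a common multiple of the numbers `H' (b ^ g - 1)` with small `H'` and `g` this shows that `p'' - p'` is
large.  So there are few resonances between the places of `B`, and the digits at most pairs of places of `B`
are nearly independent for random `m`.  The second moment of the number of occurrences in `B` is therefore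
small.  The number of the places in `𝒫` is bounded below by the number of changes of digits of `Q √2`.
-/

set_option autoImplicit false

open Finset Polynomial

namespace Pool.Agent.Results.MP_0308e6_nt.FrequenciesAlongPlaces

/-- the `k`-th digit of `x` after the point in base `b` -/
noncomputable def digit (b : ℕ) (x : ℝ) (k : ℕ) : ℤ := ⌊x * (b : ℝ) ^ k⌋ % b

/-- The digits of `Q √2` at the `2 J` places `J (t + 1) + 1, …, J (t + 3)`, which follow the block of the `J` places
`J t + 1, …, J t + J`, are neither all `0` nor all `b - 1`. -/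
def Lively (b Q J : ℕ) (t : ℕ) : Prop :=
  (∃ i, J * (t + 1) < i ∧ i ≤ J * (t + 3) ∧ digit b (Q * Real.sqrt 2) i ≠ 0) ∧
    ∃ i, J * (t + 1) < i ∧ i ≤ J * (t + 3) ∧ digit b (Q * Real.sqrt 2) i ≠ b - 1

open Classical in
/-- the places `i` in `[1, N]` which lie in blocks `J t + 1, …, J t + J` as above -/
noncomputable def places (b Q J : ℕ) (N : ℕ) : Finset ℕ :=
  (Icc 1 N).filter (fun i => Lively b Q J ((i - 1) / J))

/-- the number of the places `i` in the set `P` such that the digits of `x` at the places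
`i, i + 1, …, i + l - 1` after the point are `w 0, w 1, …, w (l - 1)` -/
noncomputable def occurrences {l : ℕ} (b : ℕ) (w : Fin l → Fin b) (P : Finset ℕ) (x : ℝ) : ℕ :=
  (P.filter (fun i => ∀ t : Fin l, digit b x (i + t) = (w t : ℕ))).card

lemma image_Pl (b Q J : ℕ) (N : ℕ) :
    (Pool.Agent.K7.H63.LN.Pl b Q J (Real.sqrt 2) N).image (fun p => p + 1) = places b Q J N := by
  classical
  unfold Pool.Agent.K7.H63.LN.Pl places
  ext i
  rw [mem_image, mem_filter, mem_Icc]
  constructor
  · rintro ⟨p, hp, rfl⟩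
    rw [mem_filter, mem_range] at hp
    refine ⟨⟨by omega, by omega⟩, ?_⟩
    rw [Nat.add_sub_cancel]
    exact hp.2
  · rintro ⟨⟨h1, h2⟩, h3⟩
    refine ⟨i - 1, ?_, by omega⟩
    rw [mem_filter, mem_range]
    exact ⟨by omega, h3⟩

lemma card_places (b Q J : ℕ) (N : ℕ) :
    (places b Q J N).card = (Pool.Agent.K7.H63.LN.Pl b Q J (Real.sqrt 2) N).card := by
  rw [← image_Pl]
  exact card_image_of_injective _ (fun a a' h => by simpa using h)

lemma occurrences_places {l : ℕ} (b Q J : ℕ) (N : ℕ) (w : Fin l → Fin b) (x : ℝ) :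
    occurrences b w (places b Q J N) x =
      Pool.Agent.K7.H63.LN.occ b (fun _ : Fin 1 => w) (Pool.Agent.K7.H63.LN.Pl b Q J (Real.sqrt 2) N)
        (fun _ => x) := by
  unfold occurrences Pool.Agent.K7.H63.LN.occ
  rw [← image_Pl, filter_image, card_image_of_injective _ (fun a a' h => by simpa using h)]
  congr 1
  refine filter_congr fun p _ => ?_
  exact ⟨fun h _ t => h t, fun h t => h 0 t⟩

lemma tend34 : Filter.Tendsto (fun n : ℕ => Real.log n ^ 3 / Real.log (Real.log n) ^ 4)
    Filter.atTop Filter.atTop := by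
  refine Filter.tendsto_atTop_mono' _ ?_ Pool.Agent.K7.H63.MR.tend35
  have h1 : Filter.Tendsto (fun n : ℕ => Real.log (Real.log n)) Filter.atTop Filter.atTop :=
    Real.tendsto_log_atTop.comp (Real.tendsto_log_atTop.comp tendsto_natCast_atTop_atTop)
  have h2 : Filter.Tendsto (fun n : ℕ => Real.log n) Filter.atTop Filter.atTop :=
    Real.tendsto_log_atTop.comp tendsto_natCast_atTop_atTop
  filter_upwards [h1.eventually_ge_atTop 1, h2.eventually_ge_atTop 1] with n hn hn2
  gcongr
  norm_num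

/-- The result. -/
theorem result (b : ℕ) (hb : 2 ≤ b) (l : ℕ) (f : ℤ[X]) (hf : f.natDegree ≠ 0) (ε : ℝ) (hε : 0 < ε) :
    ∃ Q : ℕ, 1 ≤ Q ∧ ∃ c : ℝ, 0 < c ∧ ∃ J₀ : ℕ, ∀ J : ℕ, J₀ ≤ J → ∃ M₀ N₀ : ℕ, ∀ M N : ℕ, M₀ ≤ M → N₀ ≤ N →
      ∀ y : ℝ,
        c * (Real.log N ^ 3 / Real.log (Real.log N) ^ 4) ≤ (places b Q J N).card ∧
        (1 - ε) * M ≤ (((Icc 1 M).filter (fun m : ℕ => ∀ w : Fin l → Fin b,
          |(occurrences b w (places b Q J N) ((f.eval (m : ℤ) : ℤ) * Real.sqrt 2 + y) : ℝ) -
            (places b Q J N).card / (b : ℝ) ^ l| ≤ ε * (places b Q J N).card)).card : ℝ) := by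
  classical
  obtain ⟨Q, hQ, c, hc, J₀, H⟩ := Pool.Agent.K7.H63.LN.final hb (fun M => Icc 1 M)
    (fun (m : ℕ) (_ : Fin 1) => f.eval (m : ℤ)) ⟨1, fun M hM => ⟨1, mem_Icc.2 ⟨le_rfl, hM⟩⟩⟩
    (Pool.Agent.K7.H63.LN.uw_poly (fun _ : Fin 1 => f) fun h hh => by
      rw [Fin.sum_univ_one]
      have h0 : h 0 ≠ 0 := by
        intro h0
        apply hh
        funext i
        rw [Subsingleton.elim i 0, h0]
        rfl
      have e1 : h 0 • f = C (h 0) * f := by rw [← smul_eq_C_mul]
      rw [e1, natDegree_C_mul h0]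
      exact Nat.one_le_iff_ne_zero.2 hf) l (Real.sqrt 2) _
    tend34 (fun Q hQ => Pool.Agent.K7.H63.MR.changes hb hQ) ε hε
  refine ⟨Q, hQ, c, hc, J₀, fun J hJ => ?_⟩
  obtain ⟨M₀, N₀, H⟩ := H J hJ
  refine ⟨M₀, N₀, fun M N hM hN y => ?_⟩
  obtain ⟨h1, h2⟩ := H M N hM hN (fun _ => y)
  rw [card_places]
  refine ⟨h1, ?_⟩
  simp only [occurrences_places]
  have h3 := card_filter_add_card_filter_not (s := Icc 1 M) (fun m : ℕ => ∃ D : Fin 1 → Fin l → Fin b,
        ε * (Pool.Agent.K7.H63.LN.Pl b Q J (Real.sqrt 2) N).card <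
        |(Pool.Agent.K7.H63.LN.occ b D (Pool.Agent.K7.H63.LN.Pl b Q J (Real.sqrt 2) N)
          (fun _ => (f.eval (m : ℤ) : ℤ) * Real.sqrt 2 + y) : ℝ) -
          (Pool.Agent.K7.H63.LN.Pl b Q J (Real.sqrt 2) N).card / ((b : ℝ) ^ l) ^ 1|)
  rw [Nat.card_Icc, Nat.add_sub_cancel] at h3 h2
  have h4 : (M : ℝ) = (((Icc 1 M).filter (fun m : ℕ => ∃ D : Fin 1 → Fin l → Fin b,
        ε * (Pool.Agent.K7.H63.LN.Pl b Q J (Real.sqrt 2) N).card <
        |(Pool.Agent.K7.H63.LN.occ b D (Pool.Agent.K7.H63.LN.Pl b Q J (Real.sqrt 2) N)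
          (fun _ => (f.eval (m : ℤ) : ℤ) * Real.sqrt 2 + y) : ℝ) -
          (Pool.Agent.K7.H63.LN.Pl b Q J (Real.sqrt 2) N).card / ((b : ℝ) ^ l) ^ 1|)).card : ℝ) +
      (((Icc 1 M).filter (fun m : ℕ => ¬ ∃ D : Fin 1 → Fin l → Fin b,
        ε * (Pool.Agent.K7.H63.LN.Pl b Q J (Real.sqrt 2) N).card <
        |(Pool.Agent.K7.H63.LN.occ b D (Pool.Agent.K7.H63.LN.Pl b Q J (Real.sqrt 2) N)
          (fun _ => (f.eval (m : ℤ) : ℤ) * Real.sqrt 2 + y) : ℝ) -
          (Pool.Agent.K7.H63.LN.Pl b Q J (Real.sqrt 2) N).card / ((b : ℝ) ^ l) ^ 1|)).card : ℝ) := by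
    exact_mod_cast h3.symm
  have h5 : (1 - ε) * (M : ℝ) ≤ (((Icc 1 M).filter (fun m : ℕ => ¬ ∃ D : Fin 1 → Fin l → Fin b,
        ε * (Pool.Agent.K7.H63.LN.Pl b Q J (Real.sqrt 2) N).card <
        |(Pool.Agent.K7.H63.LN.occ b D (Pool.Agent.K7.H63.LN.Pl b Q J (Real.sqrt 2) N)
          (fun _ => (f.eval (m : ℤ) : ℤ) * Real.sqrt 2 + y) : ℝ) -
          (Pool.Agent.K7.H63.LN.Pl b Q J (Real.sqrt 2) N).card / ((b : ℝ) ^ l) ^ 1|)).card : ℝ) := by
    linarith
  refine h5.trans ?_
  rw [Nat.cast_le]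
  refine card_le_card fun m hm => ?_
  rw [mem_filter] at hm ⊢
  refine ⟨hm.1, fun w => ?_⟩
  by_contra hcon
  refine hm.2 ⟨fun _ => w, ?_⟩
  rw [pow_one]
  exact not_le.1 hcon

end Pool.Agent.Results.MP_0308e6_nt.FrequenciesAlongPlaces
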