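import Pool.Agent.K7.H63.MR.Win

/-!
# The zeros and the ones of `√2` are spread out

No hypothesis is assumed.  Let `d` be a positive integer which is not a square, for example
`d = 2`, and let `v` be `0` or `1`.  There is `c > 0` such that for all large `n` and all `t` with
`1 ≤ t ≤ n` at least `c √(n t)` of the places `k` in `[1, n]` have a digit `v` of `√d` among the
places `k, k + 1, …, k + t - 1` that are at most `n`.
-/

set_option autoImplicit false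

open Finset

namespace Pool.Agent.Results.MP_0308e6_nt.SpreadOfDigits

/-- the `k`-th binary digit of `x` after the point -/
noncomputable def digit (x : ℝ) (k : ℕ) : ℤ := ⌊x * 2 ^ k⌋ % 2

lemma digit_neg {x : ℝ} (hx : Irrational x) (k : ℕ) : digit (-x) k = 1 - digit x k := by
  unfold digit
  have h1 : ⌊-x * 2 ^ k⌋ = -⌊x * 2 ^ k⌋ - 1 := by
    rw [neg_mul, Int.floor_eq_iff]
    have h2 := Int.floor_le (x * 2 ^ k)
    have h3 := Int.lt_floor_add_one (x * 2 ^ k)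
    have h4 : (⌊x * 2 ^ k⌋ : ℝ) ≠ x * 2 ^ k := fun h =>
      Pool.Agent.K7.H63.MR.irr_mul hx k ⟨(⌊x * 2 ^ k⌋ : ℚ), by push_cast; exact h⟩
    have h5 := lt_of_le_of_ne h2 h4
    push_cast
    constructor <;> linarith
  rw [h1]
  omega

lemma dig_iff (x : ℝ) {s : ℕ} (hs : 1 ≤ s) : Pool.Agent.K7.H63.MR.dig x s = 1 ↔ digit x s = 1 := by
  unfold digit Pool.Agent.K7.H63.MR.dig
  rw [if_neg (by omega)]
  omega

open Classical in
/-- The result. -/
theorem result (d : ℕ) (hd : ¬ IsSquare d) (v : ℤ) (hv : v = 0 ∨ v = 1) :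
    ∃ c : ℝ, 0 < c ∧ ∃ n₀ : ℕ, ∀ n t : ℕ, n₀ ≤ n → 1 ≤ t → t ≤ n →
      c * Real.sqrt (n * t) ≤ (((Icc 1 n).filter (fun k =>
        ∃ s, k ≤ s ∧ s < k + t ∧ s ≤ n ∧ digit (Real.sqrt d) s = v)).card : ℝ) := by
  have hirr : Irrational (Real.sqrt d) := irrational_sqrt_natCast_iff.2 hd
  have h1 : (Real.sqrt d) ^ 2 = ((d : ℤ) : ℝ) := by
    rw [Real.sq_sqrt (Nat.cast_nonneg d)]; simp
  have h2 : (-Real.sqrt d) ^ 2 = ((d : ℤ) : ℝ) := by rw [neg_sq]; exact h1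
  obtain ⟨x, hx, hxd, hxv⟩ : ∃ x : ℝ, Irrational x ∧ x ^ 2 = ((d : ℤ) : ℝ) ∧
      ∀ s, 1 ≤ s → (Pool.Agent.K7.H63.MR.dig x s = 1 ↔ digit (Real.sqrt d) s = v) := by
    rcases hv with rfl | rfl
    · refine ⟨-Real.sqrt d, hirr.neg, h2, fun s hs => ?_⟩
      rw [dig_iff _ hs, digit_neg hirr]
      omega
    · exact ⟨Real.sqrt d, hirr, h1, fun s hs => dig_iff _ hs⟩
  obtain ⟨C, n₀, hC, hn₀, h⟩ := Pool.Agent.K7.H63.MR.win_ge hx hxd
  have hCR : (1 : ℝ) ≤ C := by exact_mod_cast hC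
  refine ⟨1 / (2 * C), by positivity, n₀, fun n t hn ht htn => ?_⟩
  have h3 := h n t hn ht htn
  have e : Pool.Agent.K7.H63.MR.Win (Pool.Agent.K7.H63.MR.dig x) n t = (Icc 1 n).filter (fun k =>
        ∃ s, k ≤ s ∧ s < k + t ∧ s ≤ n ∧ digit (Real.sqrt d) s = v) := by
    ext k
    rw [Pool.Agent.K7.H63.MR.mem_Win, mem_filter, mem_Icc]
    constructor
    · rintro ⟨hk, s, a1, a2, a3, a4⟩
      exact ⟨hk, s, a1, a2, a3, (hxv s (by omega)).1 a4⟩
    · rintro ⟨hk, s, a1, a2, a3, a4⟩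
      exact ⟨hk, s, a1, a2, a3, (hxv s (by omega)).2 a4⟩
  rw [e] at h3
  set L := ((Icc 1 n).filter (fun k =>
        ∃ s, k ≤ s ∧ s < k + t ∧ s ≤ n ∧ digit (Real.sqrt d) s = v)).card with hL
  have h4 : Real.sqrt (n * t) ≤ 2 * C * L := by
    rw [Real.sqrt_le_left (by positivity)]
    have : ((t * n : ℕ) : ℝ) ≤ ((2 * C * L : ℕ) : ℝ) ^ 2 := by exact_mod_cast h3
    push_cast at this
    linarith
  rw [div_mul_eq_mul_div, one_mul, div_le_iff₀ (by positivity)]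
  linarith

end Pool.Agent.Results.MP_0308e6_nt.SpreadOfDigits
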